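import Mathlib
import Pool.Agent.H29.Trap

namespace Pool.Agent.Results.MP_12bcff_ag.Plane
open MvPolynomial

/-- geometric points of the affine plane over `F` -/
abbrev Pt (F : Type) [Field F] := Fin 2 → AlgebraicClosure F

variable {F : Type} [Field F]

/-- the action on geometric points of the polynomial map with components `T 0, T 1` over `F` -/
noncomputable def act (T : Fin 2 → MvPolynomial (Fin 2) F) (x : Pt F) : Pt F :=
  fun i => aeval x (T i)

/-- geometric points of the closed subvariety cut out by the ideal `I` of `F[x,y]` -/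
def V (I : Ideal (MvPolynomial (Fin 2) F)) : Set (Pt F) := {x | ∀ f ∈ I, aeval x f = 0}

/-- nilpotent: one iterate sends all of `Y` to a fixed point -/
def Nil (T : Fin 2 → MvPolynomial (Fin 2) F) (Y : Set (Pt F)) : Prop :=
  ∃ P, act T P = P ∧ ∃ k, 1 ≤ k ∧ (act T)^[k] '' Y = {P}

/-- geometrically nilpotent: every point of `Y` reaches one fixed point -/
def GeomNil (T : Fin 2 → MvPolynomial (Fin 2) F) (Y : Set (Pt F)) : Prop :=
  ∃ P, act T P = P ∧ ∀ Q ∈ Y, ∃ k, 1 ≤ k ∧ (act T)^[k] Q = P

/-- the map `(x (1 + y), x)` -/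
noncomputable def T0 (F : Type) [Field F] : Fin 2 → MvPolynomial (Fin 2) F :=
  ![X 0 * (1 + X 1), X 0]

lemma act0 (x : Pt F) : act (T0 F) x 0 = x 0 * (1 + x 1) := by simp [act, T0]
lemma act1 (x : Pt F) : act (T0 F) x 1 = x 0 := by simp [act, T0]

lemma kill (x : Pt F) (h : x 0 = 0) : act (T0 F) x = 0 := by
  funext i
  fin_cases i
  · simp [act0, h]
  · simp [act1, h]

lemma mem_V (y : Pt F) : y ∈ V (Ideal.span {X 1} : Ideal (MvPolynomial (Fin 2) F)) ↔ y 1 = 0 := by
  constructor
  · intro h
    simpa using h _ (Ideal.subset_span rfl)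
  · intro h f hf
    obtain ⟨g, rfl⟩ := Ideal.mem_span_singleton'.1 hf
    simp [h]

lemma orbit (k : ℕ) : ∃ a b : Polynomial (AlgebraicClosure F), a.eval 0 = 1 ∧
    ∀ t, (act (T0 F))^[k] ![t, 0] 0 = t * a.eval t ∧ (act (T0 F))^[k] ![t, 0] 1 = t * b.eval t := by
  induction k with
  | zero => exact ⟨1, 0, by simp, by simp⟩
  | succ k ih =>
    obtain ⟨a, b, h0, h⟩ := ih
    refine ⟨a * (1 + Polynomial.X * b), a, by simp [h0], fun t => ?_⟩
    rw [Function.iterate_succ_apply', act0, act1, (h t).1, (h t).2]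
    simp [mul_assoc]

theorem result (F : Type) [Field F] [Finite F] :
    ∃ (T : Fin 2 → MvPolynomial (Fin 2) F) (I : Ideal (MvPolynomial (Fin 2) F)),
      (V I).Nonempty ∧ GeomNil T (V I) ∧ ¬ Nil T (V I) := by
  refine ⟨T0 F, Ideal.span {X 1}, ⟨0, (mem_V _).2 rfl⟩, ⟨0, kill _ rfl, fun Q hQ => ?_⟩, ?_⟩
  · rw [mem_V] at hQ
    by_cases h0 : Q 0 = 0
    · exact ⟨1, le_rfl, kill _ h0⟩
    obtain ⟨L, hL, hQL⟩ := H29.Trap.fin_sub (Q 0)
    refine (H29.Trap.exit_of (act (T0 F)) {x | x 0 ≠ 0}
      (Set.univ.pi fun _ => (L : Set (AlgebraicClosure F))) (Set.Finite.pi fun _ => hL)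
      ?_ Q ?_ ?_).elim fun k hk => ?_
    rotate_right
    · refine ⟨k + 1, by omega, ?_⟩
      rw [Function.iterate_succ_apply']
      exact kill _ (by simpa using hk)
    · intro x hx y _ h
      have e0 := congrFun h 0
      have e1 := congrFun h 1
      rw [act0, act0] at e0
      rw [act1, act1] at e1
      rw [← e1] at e0
      have e2 := add_left_cancel (mul_left_cancel₀ hx e0)
      funext i
      fin_cases i
      · exact e1
      · exact e2
    · rintro ⟨x, rfl⟩
      rw [act1] at hQ
      rw [act0, hQ] at h0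
      simp at h0
    · intro k
      induction k with
      | zero =>
        intro i _
        fin_cases i
        · exact hQL
        · show Q 1 ∈ L
          rw [hQ]
          exact L.zero_mem
      | succ k ih =>
        rw [Function.iterate_succ_apply']
        intro i _
        fin_cases i
        · show act (T0 F) _ 0 ∈ L
          rw [act0]
          exact L.mul_mem (ih 0 trivial) (L.add_mem L.one_mem (ih 1 trivial))
        · show act (T0 F) _ 1 ∈ L
          rw [act1]
          exact ih 0 trivial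
  · rintro ⟨P, -, k, -, hk⟩
    obtain ⟨a, b, h0, h⟩ := orbit (F := F) k
    have hP : ∀ t, t * a.eval t = P 0 := by
      intro t
      have : (act (T0 F))^[k] ![t, 0] ∈ ({P} : Set (Pt F)) :=
        hk ▸ Set.mem_image_of_mem _ ((mem_V _).2 rfl)
      rw [← (h t).1, this]
    have hX : Polynomial.X * a = 0 := by
      apply Polynomial.funext
      intro t
      have h1 := hP 0
      rw [zero_mul] at h1
      simp [hP t, ← h1]
    rcases mul_eq_zero.1 hX with h1 | h1
    · exact Polynomial.X_ne_zero h1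
    · simp [h1] at h0

end Pool.Agent.Results.MP_12bcff_ag.Plane
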